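import Mathlib

set_option autoImplicit false

/-! The 38-vertex block of the counterexamples to the inverse domination conjecture (the same
block as in the proof of the frozen statement of MP_bd5289_co), with the domination hypotheses
weakened to the vertices outside the clique `D`, so that blocks can be joined along `d 0`. -/

namespace Pool.Agent.ID68

/-- the vertex type -/
abbrev V : Type := Fin 7 ⊕ (Fin 6 ⊕ (Unit ⊕ (Fin 3 × Fin 8)))

/-- the triangle-free graph `H` on `Fin 8`, as a Boolean relation -/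
def hB (a b : Fin 8) : Bool :=
  (a == 0 && b == 1) || (a == 1 && b == 0) || (a == 2 && b == 3) || (a == 3 && b == 2) ||
  (a == 4 && b == 0) || (a == 0 && b == 4) || (a == 4 && b == 2) || (a == 2 && b == 4) ||
  (a == 5 && b == 0) || (a == 0 && b == 5) || (a == 5 && b == 3) || (a == 3 && b == 5) ||
  (a == 6 && b == 1) || (a == 1 && b == 6) || (a == 6 && b == 2) || (a == 2 && b == 6) ||
  (a == 7 && b == 1) || (a == 1 && b == 7) || (a == 7 && b == 3) || (a == 3 && b == 7)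

/-- adjacency inside a gadget: the complement of `H` -/
def cB (a b : Fin 8) : Bool := a != b && !hB a b

/-- the index of the vertex of `D` to which a gadget vertex is joined -/
def cls (i : Fin 3) (c : Fin 8) : Fin 7 :=
  if c.val < 2 then ⟨2 * i.val + 1, by omega⟩
  else if c.val < 4 then ⟨2 * i.val + 2, by omega⟩ else 0

/-- adjacency, as a Boolean relation -/
def adjB : V → V → Bool
  | .inl a, .inl b => a != b
  | .inl a, .inr (.inl b) => a == b.succ
  | .inl a, .inr (.inr (.inl _)) => a == 0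
  | .inl a, .inr (.inr (.inr (i, c))) => a == cls i c
  | .inr (.inl b), .inl a => a == b.succ
  | .inr (.inr (.inl _)), .inl a => a == 0
  | .inr (.inr (.inr (i, c))), .inl a => a == cls i c
  | .inr (.inl a), .inr (.inl b) => a != b
  | .inr (.inr (.inr (i, c))), .inr (.inr (.inr (j, e))) => i == j && cB c e
  | _, _ => false

lemma adjB_symm : ∀ u v : V, adjB u v = adjB v u := by decide +kernel

lemma adjB_irrefl : ∀ u : V, adjB u u = false := by decide +kernel

abbrev vd (a : Fin 7) : V := .inl a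
abbrev vq (a : Fin 6) : V := .inr (.inl a)
abbrev vv : V := .inr (.inr (.inl ()))
abbrev vc (i : Fin 3) (c : Fin 8) : V := .inr (.inr (.inr (i, c)))

/-- the part of `Z` in the gadget `i` -/
def part (Z : Finset V) (i : Fin 3) : Finset (Fin 8) := Finset.univ.filter fun c => vc i c ∈ Z

lemma mem_part (Z : Finset V) (i : Fin 3) (c : Fin 8) : c ∈ part Z i ↔ vc i c ∈ Z := by
  simp [part]

/-- the cardinality of a set of vertices, split into the parts of the graph -/
lemma card_split (Z : Finset V) :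
    Z.card = (∑ a : Fin 7, if vd a ∈ Z then 1 else 0) + (∑ b : Fin 6, if vq b ∈ Z then 1 else 0)
      + (if vv ∈ Z then 1 else 0)
      + ((part Z 0).card + (part Z 1).card + (part Z 2).card) := by
  have h : Z.card = ∑ u : V, if u ∈ Z then 1 else 0 := by
    rw [Finset.sum_ite_mem, Finset.univ_inter, Finset.card_eq_sum_ones]
  have hp : ∀ i, (part Z i).card = ∑ c : Fin 8, if vc i c ∈ Z then 1 else 0 := by
    intro i
    rw [part, Finset.card_filter]
  rw [h, Fintype.sum_sum_type, Fintype.sum_sum_type, Fintype.sum_sum_type, Fintype.sum_prod_type,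
    Fin.sum_univ_three, hp 0, hp 1, hp 2]
  simp only [Finset.univ_unique, Finset.sum_singleton]
  simp only [add_assoc]

/-- domination inside a gadget -/
def dom8 (T : Finset (Fin 8)) (c : Fin 8) : Prop := c ∈ T ∨ ∃ e ∈ T, cB c e = true

instance (T : Finset (Fin 8)) (c : Fin 8) : Decidable (dom8 T c) := by
  unfold dom8; infer_instance

lemma fact1 : ∀ T : Finset (Fin 8), (dom8 T 0 ∨ dom8 T 2 ∨ dom8 T 4) → 1 ≤ T.card := by
  decide +kernel

lemma fact2 : ∀ T : Finset (Fin 8), dom8 T 0 → dom8 T 1 → dom8 T 2 → dom8 T 3 →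
    2 ≤ T.card := by
  decide +kernel

lemma fact3 : ∀ T : Finset (Fin 8), dom8 T 0 → dom8 T 1 → dom8 T 4 → dom8 T 5 → dom8 T 6 →
    dom8 T 7 → 2 ≤ T.card := by
  decide +kernel

lemma fact4 : ∀ T : Finset (Fin 8), dom8 T 2 → dom8 T 3 → dom8 T 4 → dom8 T 5 → dom8 T 6 →
    dom8 T 7 → 2 ≤ T.card := by
  decide +kernel

lemma fact5 : ∀ T : Finset (Fin 8), (∀ c, dom8 T c) →
    1 + (if 0 ∈ T ∨ 1 ∈ T then 1 else 0) + (if 2 ∈ T ∨ 3 ∈ T then 1 else 0) ≤ T.card := by
  decide +kernel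

lemma fact6 : ∀ T : Finset (Fin 8), (∀ c ∈ T, ∀ e ∈ T, cB c e = false) → T.card ≤ 2 := by
  decide +kernel

/-- `Z` dominates every vertex outside the clique `D` -/
def Dom (Z : Finset V) : Prop := ∀ v : V, (∀ a, v ≠ vd a) → v ∈ Z ∨ ∃ u ∈ Z, adjB v u = true

lemma dom_gadget {Z : Finset V} (hZ : Dom Z) (i : Fin 3) (c : Fin 8) (hc : vd (cls i c) ∉ Z) :
    dom8 (part Z i) c := by
  rcases hZ (vc i c) (fun a h => by cases h) with h | ⟨u, hu, hadj⟩
  · exact Or.inl ((mem_part Z i c).2 h)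
  · rcases u with a | b | w | ⟨j, e⟩
    · have : a = cls i c := by simpa [adjB] using hadj
      subst this
      exact absurd hu hc
    · simp [adjB] at hadj
    · simp [adjB] at hadj
    · simp only [adjB, Bool.and_eq_true, beq_iff_eq] at hadj
      obtain ⟨rfl, h⟩ := hadj
      exact Or.inr ⟨e, (mem_part Z i e).2 hu, h⟩

lemma dom_q {Z : Finset V} (hZ : Dom Z) (b : Fin 6) (hb : vd b.succ ∉ Z) :
    ∃ b', vq b' ∈ Z := by
  rcases hZ (vq b) (fun a h => by cases h) with h | ⟨u, hu, hadj⟩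
  · exact ⟨b, h⟩
  · rcases u with a | b' | w | ⟨j, e⟩
    · have : a = b.succ := by simpa [adjB] using hadj
      subst this
      exact absurd hu hb
    · exact ⟨b', hu⟩
    · simp [adjB] at hadj
    · simp [adjB] at hadj

lemma dom_v {Z : Finset V} (hZ : Dom Z) (h0 : vd 0 ∉ Z) : vv ∈ Z := by
  rcases hZ vv (fun a h => by cases h) with h | ⟨u, hu, hadj⟩
  · exact h
  · rcases u with a | b' | w | ⟨j, e⟩
    · have : a = 0 := by simpa [adjB] using hadj
      subst this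
      exact absurd hu h0
    · simp [adjB] at hadj
    · simp [adjB] at hadj
    · simp [adjB] at hadj

lemma cls01 (i : Fin 3) : cls i 0 = cls i 1 := rfl
lemma cls23 (i : Fin 3) : cls i 2 = cls i 3 := rfl
lemma clsz (i : Fin 3) (c : Fin 8) (hc : 4 ≤ c.val) : cls i c = 0 := by
  unfold cls
  rw [if_neg (by omega), if_neg (by omega)]

/-- the four constraints on a gadget -/
lemma gadget_bounds {Z : Finset V} (hZ : Dom Z) (i : Fin 3) :
    1 ≤ (part Z i).card + (if vd 0 ∈ Z then 1 else 0) ∧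
    2 ≤ (part Z i).card + (if vd (cls i 0) ∈ Z then 1 else 0) + (if vd (cls i 2) ∈ Z then 1 else 0) ∧
    2 ≤ (part Z i).card + (if vd 0 ∈ Z then 1 else 0) + (if vd (cls i 0) ∈ Z then 1 else 0) ∧
    2 ≤ (part Z i).card + (if vd 0 ∈ Z then 1 else 0) + (if vd (cls i 2) ∈ Z then 1 else 0) := by
  have hz : vd 0 ∉ Z → ∀ c : Fin 8, 4 ≤ c.val → dom8 (part Z i) c := by
    intro h0 c hc
    refine dom_gadget hZ i c ?_
    rw [clsz i c hc]
    exact h0
  have ha : vd (cls i 0) ∉ Z → dom8 (part Z i) 0 ∧ dom8 (part Z i) 1 := fun h =>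
    ⟨dom_gadget hZ i 0 h, dom_gadget hZ i 1 h⟩
  have hb : vd (cls i 2) ∉ Z → dom8 (part Z i) 2 ∧ dom8 (part Z i) 3 := fun h =>
    ⟨dom_gadget hZ i 2 h, dom_gadget hZ i 3 h⟩
  by_cases h0 : vd 0 ∈ Z <;> by_cases h1 : vd (cls i 0) ∈ Z <;> by_cases h2 : vd (cls i 2) ∈ Z
  · simp [h0, h1, h2]
  · have := fact1 _ (Or.inr (Or.inl (hb h2).1))
    simp only [h0, h1, h2, if_true, if_false]
    omega
  · have := fact1 _ (Or.inl (ha h1).1)
    simp only [h0, h1, h2, if_true, if_false]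
    omega
  · have := fact2 _ (ha h1).1 (ha h1).2 (hb h2).1 (hb h2).2
    simp only [h0, h1, h2, if_true, if_false]
    omega
  · have := fact1 _ (Or.inr (Or.inr (hz h0 4 (by decide))))
    simp only [h0, h1, h2, if_true, if_false]
    omega
  · have := fact4 _ (hb h2).1 (hb h2).2 (hz h0 4 (by decide)) (hz h0 5 (by decide))
      (hz h0 6 (by decide)) (hz h0 7 (by decide))
    simp only [h0, h1, h2, if_true, if_false]
    omega
  · have := fact3 _ (ha h1).1 (ha h1).2 (hz h0 4 (by decide)) (hz h0 5 (by decide))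
      (hz h0 6 (by decide)) (hz h0 7 (by decide))
    simp only [h0, h1, h2, if_true, if_false]
    omega
  · have := fact4 _ (hb h2).1 (hb h2).2 (hz h0 4 (by decide)) (hz h0 5 (by decide))
      (hz h0 6 (by decide)) (hz h0 7 (by decide))
    simp only [h0, h1, h2, if_true, if_false]
    omega

lemma arith (e0 e1 e2 e3 e4 e5 e6 nq nv t0 t1 t2 : ℕ)
    (h0 : e0 ≤ 1) (h1 : e1 ≤ 1) (h2 : e2 ≤ 1) (h3 : e3 ≤ 1) (h4 : e4 ≤ 1) (h5 : e5 ≤ 1)
    (h6 : e6 ≤ 1)
    (q1 : 1 ≤ nq + e1) (q2 : 1 ≤ nq + e2) (q3 : 1 ≤ nq + e3) (q4 : 1 ≤ nq + e4)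
    (q5 : 1 ≤ nq + e5) (q6 : 1 ≤ nq + e6) (hv : 1 ≤ nv + e0)
    (a0 : 1 ≤ t0 + e0) (b0 : 2 ≤ t0 + e1 + e2) (c0 : 2 ≤ t0 + e0 + e1) (d0 : 2 ≤ t0 + e0 + e2)
    (a1 : 1 ≤ t1 + e0) (b1 : 2 ≤ t1 + e3 + e4) (c1 : 2 ≤ t1 + e0 + e3) (d1 : 2 ≤ t1 + e0 + e4)
    (a2 : 1 ≤ t2 + e0) (b2 : 2 ≤ t2 + e5 + e6) (c2 : 2 ≤ t2 + e0 + e5) (d2 : 2 ≤ t2 + e0 + e6)
    (htot : (e0 + e1 + e2 + e3 + e4 + e5 + e6) + nq + nv + (t0 + t1 + t2) ≤ 7) :
    e0 = 1 ∧ e1 = 1 ∧ e2 = 1 ∧ e3 = 1 ∧ e4 = 1 ∧ e5 = 1 ∧ e6 = 1 := by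
  have hq : 1 ≤ nq ∨ (e1 = 1 ∧ e2 = 1 ∧ e3 = 1 ∧ e4 = 1 ∧ e5 = 1 ∧ e6 = 1) := by omega
  rcases Nat.le_one_iff_eq_zero_or_eq_one.1 h0 with rfl | rfl
  · exfalso
    rcases hq with hq | ⟨rfl, rfl, rfl, rfl, rfl, rfl⟩
    · omega
    · omega
  · rcases hq with hq | ⟨rfl, rfl, rfl, rfl, rfl, rfl⟩
    · exfalso
      omega
    · omega

/-- a dominating set with at most 7 vertices contains `D` -/
lemma all_d {Z : Finset V} (hZ : Dom Z) (hcard : Z.card ≤ 7) (a : Fin 7) : vd a ∈ Z := by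
  have hs := card_split Z
  rw [Fin.sum_univ_seven] at hs
  obtain ⟨a0, b0, c0, d0⟩ := gadget_bounds hZ 0
  obtain ⟨a1, b1, c1, d1⟩ := gadget_bounds hZ 1
  obtain ⟨a2, b2, c2, d2⟩ := gadget_bounds hZ 2
  have le1 : ∀ v : V, (if v ∈ Z then 1 else 0) ≤ 1 := by
    intro v; split <;> omega
  have hq : ∀ b : Fin 6, 1 ≤ (∑ b : Fin 6, if vq b ∈ Z then 1 else 0) +
      (if vd b.succ ∈ Z then 1 else 0) := by
    intro b
    by_cases h : vd b.succ ∈ Z
    · simp only [h, if_true]; omega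
    · obtain ⟨b', hb'⟩ := dom_q hZ b h
      have : (if vq b' ∈ Z then 1 else 0) ≤ ∑ b : Fin 6, if vq b ∈ Z then 1 else 0 :=
        Finset.single_le_sum (f := fun b : Fin 6 => if vq b ∈ Z then 1 else 0)
          (fun _ _ => Nat.zero_le _) (Finset.mem_univ b')
      rw [if_pos hb'] at this
      omega
  have hv : 1 ≤ (if vv ∈ Z then 1 else 0) + (if vd 0 ∈ Z then 1 else 0) := by
    by_cases h : vd 0 ∈ Z
    · simp only [h, if_true]; omega
    · simp only [dom_v hZ h, if_true]; omega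
  have key := arith _ _ _ _ _ _ _ _ _ _ _ _ (le1 (vd 0)) (le1 (vd 1)) (le1 (vd 2)) (le1 (vd 3))
    (le1 (vd 4)) (le1 (vd 5)) (le1 (vd 6)) (hq 0) (hq 1) (hq 2) (hq 3) (hq 4) (hq 5) hv
    a0 b0 c0 d0 a1 b1 c1 d1 a2 b2 c2 d2 (by rw [← hs]; exact hcard)
  have conv : ∀ v : V, (if v ∈ Z then 1 else 0) = 1 → v ∈ Z := by
    intro v h
    by_contra hv
    simp [hv] at h
  obtain ⟨k0, k1, k2, k3, k4, k5, k6⟩ := key
  fin_cases a
  · exact conv _ k0
  · exact conv _ k1
  · exact conv _ k2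
  · exact conv _ k3
  · exact conv _ k4
  · exact conv _ k5
  · exact conv _ k6

/-- the vertex `q (2i+1)` -/
def qa (i : Fin 3) : Fin 6 := ⟨2 * i.val, by omega⟩
/-- the vertex `q (2i+2)` -/
def qb (i : Fin 3) : Fin 6 := ⟨2 * i.val + 1, by omega⟩

lemma nbA1 : ∀ (i : Fin 3) (b : Fin 6), adjB (vd (cls i 0)) (vq b) = true → b = qa i := by
  decide +kernel
lemma nbA2 : ∀ (i : Fin 3), adjB (vd (cls i 0)) vv = false := by
  decide +kernel
lemma nbA3 : ∀ (i j : Fin 3) (e : Fin 8), adjB (vd (cls i 0)) (vc j e) = true →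
    i = j ∧ (e = 0 ∨ e = 1) := by
  decide +kernel
lemma nbB1 : ∀ (i : Fin 3) (b : Fin 6), adjB (vd (cls i 2)) (vq b) = true → b = qb i := by
  decide +kernel
lemma nbB2 : ∀ (i : Fin 3), adjB (vd (cls i 2)) vv = false := by
  decide +kernel
lemma nbB3 : ∀ (i j : Fin 3) (e : Fin 8), adjB (vd (cls i 2)) (vc j e) = true →
    i = j ∧ (e = 2 ∨ e = 3) := by
  decide +kernel

/-- a dominating set that avoids `D` has at least 10 vertices -/
lemma ten_le {S : Finset V} (hS : Dom S) (hit : ∀ a : Fin 7, ∃ u ∈ S, adjB (vd a) u = true)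
    (hd : ∀ a, vd a ∉ S) : 10 ≤ S.card := by
  have hs := card_split S
  have hfull : ∀ (i : Fin 3) (c : Fin 8), dom8 (part S i) c := fun i c =>
    dom_gadget hS i c (hd _)
  have hitA : ∀ i : Fin 3, 1 ≤ (if vq (qa i) ∈ S then 1 else 0) +
      (if 0 ∈ part S i ∨ 1 ∈ part S i then 1 else 0) := by
    intro i
    obtain ⟨u, hu, hadj⟩ := hit (cls i 0)
    rcases u with a | b | w | ⟨j, e⟩
    · exact absurd hu (hd a)
    · rw [nbA1 i b hadj] at hu
      rw [if_pos hu]; omega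
    · rw [nbA2 i] at hadj
      exact absurd hadj (by decide)
    · obtain ⟨rfl, rfl | rfl⟩ := nbA3 i j e hadj
      · rw [if_pos (Or.inl ((mem_part S i 0).2 hu))]; omega
      · rw [if_pos (Or.inr ((mem_part S i 1).2 hu))]; omega
  have hitB : ∀ i : Fin 3, 1 ≤ (if vq (qb i) ∈ S then 1 else 0) +
      (if 2 ∈ part S i ∨ 3 ∈ part S i then 1 else 0) := by
    intro i
    obtain ⟨u, hu, hadj⟩ := hit (cls i 2)
    rcases u with a | b | w | ⟨j, e⟩
    · exact absurd hu (hd a)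
    · rw [nbB1 i b hadj] at hu
      rw [if_pos hu]; omega
    · rw [nbB2 i] at hadj
      exact absurd hadj (by decide)
    · obtain ⟨rfl, rfl | rfl⟩ := nbB3 i j e hadj
      · rw [if_pos (Or.inl ((mem_part S i 2).2 hu))]; omega
      · rw [if_pos (Or.inr ((mem_part S i 3).2 hu))]; omega
  have g0 := fact5 _ (hfull 0)
  have g1 := fact5 _ (hfull 1)
  have g2 := fact5 _ (hfull 2)
  have A0 := hitA 0
  have A1 := hitA 1
  have A2 := hitA 2
  have B0 := hitB 0
  have B1 := hitB 1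
  have B2 := hitB 2
  have hv : vv ∈ S := dom_v hS (hd 0)
  rw [Fin.sum_univ_six, if_pos hv] at hs
  have e0 : qa 0 = 0 := rfl
  have e1 : qb 0 = 1 := rfl
  have e2 : qa 1 = 2 := rfl
  have e3 : qb 1 = 3 := rfl
  have e4 : qa 2 = 4 := rfl
  have e5 : qb 2 = 5 := rfl
  rw [e0] at A0
  rw [e1] at B0
  rw [e2] at A1
  rw [e3] at B1
  rw [e4] at A2
  rw [e5] at B2
  omega

/-- independent sets have at most 9 vertices -/
lemma indep_le {I : Finset V} (hI : ∀ u ∈ I, ∀ v ∈ I, adjB u v = false) : I.card ≤ 9 := by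
  have hs := card_split I
  have one : ∀ {n : ℕ} (f : Fin n → V), (∀ a b, a ≠ b → adjB (f a) (f b) = true) →
      (∑ a : Fin n, if f a ∈ I then 1 else 0) ≤ 1 := by
    intro n f hf
    rw [← Finset.card_filter]
    refine Finset.card_le_one.2 ?_
    intro a ha b hb
    by_contra hne
    have h1 := hf a b hne
    rw [hI _ (Finset.mem_filter.1 ha).2 _ (Finset.mem_filter.1 hb).2] at h1
    exact Bool.false_ne_true h1
  have h1 := one vd (by decide +kernel)
  have h2 := one vq (by decide +kernel)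
  have h3 : ∀ i, (part I i).card ≤ 2 := by
    intro i
    refine fact6 _ ?_
    intro c hc e he
    have := hI _ ((mem_part I i c).1 hc) _ ((mem_part I i e).1 he)
    simpa [adjB] using this
  have h4 : (if vv ∈ I then 1 else 0) ≤ 1 := by split <;> omega
  have := h3 0
  have := h3 1
  have := h3 2
  omega


end Pool.Agent.ID68
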