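import Pool.Agent.ID68.Core

set_option autoImplicit false

/-! `k` copies of the 38-vertex block, joined along the vertices `d 0`. -/

namespace Pool.Agent.ID68

/-- the vertex type of the joined graph -/
abbrev W (k : ℕ) : Type := Fin k × V

/-- `k` blocks; the vertices `d 0` of different blocks are adjacent -/
def GG (k : ℕ) : SimpleGraph (W k) where
  Adj x y := (x.1 = y.1 ∧ adjB x.2 y.2 = true) ∨ (x.1 ≠ y.1 ∧ x.2 = vd 0 ∧ y.2 = vd 0)
  symm := ⟨fun x y h => by
    rcases h with ⟨h1, h2⟩ | ⟨h1, h2, h3⟩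
    · exact Or.inl ⟨h1.symm, by rw [adjB_symm]; exact h2⟩
    · exact Or.inr ⟨fun h => h1 h.symm, h3, h2⟩⟩
  loopless := ⟨fun x h => by
    rcases h with ⟨_, h2⟩ | ⟨h1, _⟩
    · rw [adjB_irrefl] at h2
      exact Bool.false_ne_true h2
    · exact h1 rfl⟩

lemma gg_adj {k : ℕ} (x y : W k) : (GG k).Adj x y ↔
    (x.1 = y.1 ∧ adjB x.2 y.2 = true) ∨ (x.1 ≠ y.1 ∧ x.2 = vd 0 ∧ y.2 = vd 0) := Iff.rfl

open Classical in
/-- the part of `Z` in the block `i` -/
noncomputable def slice {k : ℕ} (Z : Finset (W k)) (i : Fin k) : Finset V :=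
  Finset.univ.filter fun u => ((i, u) : W k) ∈ Z

lemma mem_slice {k : ℕ} (Z : Finset (W k)) (i : Fin k) (u : V) :
    u ∈ slice Z i ↔ (i, u) ∈ Z := by
  simp [slice]

lemma card_slices {k : ℕ} (Z : Finset (W k)) : Z.card = ∑ i : Fin k, (slice Z i).card := by
  classical
  have h : Z.card = ∑ u : W k, if u ∈ Z then 1 else 0 := by
    rw [Finset.sum_ite_mem, Finset.univ_inter, Finset.card_eq_sum_ones]
  rw [h, Fintype.sum_prod_type]
  refine Finset.sum_congr rfl fun i _ => ?_
  rw [slice, Finset.card_filter]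
  refine Finset.sum_congr rfl fun u _ => ?_
  by_cases hu : ((i, u) : W k) ∈ Z
  · rw [if_pos hu, if_pos hu]
  · rw [if_neg hu, if_neg hu]

lemma card_le_of_slices {k c : ℕ} (Z : Finset (W k)) (h : ∀ i, (slice Z i).card ≤ c) :
    Z.card ≤ c * k := by
  rw [card_slices]
  calc ∑ i : Fin k, (slice Z i).card ≤ ∑ _i : Fin k, c := Finset.sum_le_sum fun i _ => h i
    _ = c * k := by simp [mul_comm]

lemma le_card_of_slices {k c : ℕ} (Z : Finset (W k)) (h : ∀ i, c ≤ (slice Z i).card) :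
    c * k ≤ Z.card := by
  rw [card_slices]
  calc c * k = ∑ _i : Fin k, c := by simp [mul_comm]
    _ ≤ ∑ i : Fin k, (slice Z i).card := Finset.sum_le_sum fun i _ => h i

/-- the slices of a dominating set -/
lemma slice_dom {k : ℕ} {Z : Finset (W k)}
    (hZ : ∀ v : W k, v ∉ Z → ∃ u ∈ Z, (GG k).Adj u v) (i : Fin k) : Dom (slice Z i) := by
  intro v hv
  by_cases h : (i, v) ∈ Z
  · exact Or.inl ((mem_slice Z i v).2 h)
  · obtain ⟨u, hu, hadj⟩ := hZ (i, v) h
    rcases (gg_adj _ _).1 hadj with ⟨h1, h2⟩ | ⟨_, _, h3⟩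
    · obtain ⟨j, w⟩ := u
      simp only at h1 h2
      subst h1
      exact Or.inr ⟨w, (mem_slice Z j w).2 hu, by rw [adjB_symm]; exact h2⟩
    · exact absurd h3 (hv 0)

lemma slice_ge {k : ℕ} {Z : Finset (W k)}
    (hZ : ∀ v : W k, v ∉ Z → ∃ u ∈ Z, (GG k).Adj u v) (i : Fin k) : 7 ≤ (slice Z i).card := by
  by_contra hlt
  have hall : ∀ a, vd a ∈ slice Z i := all_d (slice_dom hZ i) (by omega)
  have hsub : (Finset.univ.image vd : Finset V) ⊆ slice Z i := by
    intro x hx
    obtain ⟨a, _, rfl⟩ := Finset.mem_image.1 hx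
    exact hall a
  have h7 : (Finset.univ.image vd : Finset V).card = 7 := by
    rw [Finset.card_image_of_injective _ Sum.inl_injective]
    simp
  have := Finset.card_le_card hsub
  omega

/-- a dominating set with `7 k` vertices contains all vertices `d a` -/
lemma all_of_card {k : ℕ} {Z : Finset (W k)}
    (hZ : ∀ v : W k, v ∉ Z → ∃ u ∈ Z, (GG k).Adj u v) (hc : Z.card ≤ 7 * k)
    (i : Fin k) (a : Fin 7) : (i, vd a) ∈ Z := by
  have h7 : ∀ j, 7 ≤ (slice Z j).card := slice_ge hZ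
  have hle : (slice Z i).card ≤ 7 := by
    by_contra hgt
    have hlt : ∑ _j : Fin k, 7 < ∑ j : Fin k, (slice Z j).card :=
      Finset.sum_lt_sum (fun j _ => h7 j) ⟨i, Finset.mem_univ _, by omega⟩
    rw [← card_slices] at hlt
    simp only [Finset.sum_const, Finset.card_univ, Fintype.card_fin, smul_eq_mul] at hlt
    omega
  exact (mem_slice Z i _).1 (all_d (slice_dom hZ i) hle a)

lemma slice_ten {k : ℕ} {S : Finset (W k)}
    (hS : ∀ v : W k, v ∉ S → ∃ u ∈ S, (GG k).Adj u v) (hd : ∀ j a, (j, vd a) ∉ S) (i : Fin k) :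
    10 ≤ (slice S i).card := by
  refine ten_le (slice_dom hS i) ?_ (fun a h => hd i a ((mem_slice S i _).1 h))
  intro a
  obtain ⟨u, hu, hadj⟩ := hS (i, vd a) (hd i a)
  rcases (gg_adj _ _).1 hadj with ⟨h1, h2⟩ | ⟨_, h3, _⟩
  · obtain ⟨j, w⟩ := u
    simp only at h1 h2
    subst h1
    exact ⟨w, (mem_slice S j w).2 hu, by rw [adjB_symm]; exact h2⟩
  · obtain ⟨j, w⟩ := u
    simp only at h3
    subst h3
    exact absurd hu (hd j 0)

lemma slice_indep {k : ℕ} {I : Finset (W k)} (hI : (GG k).IsIndepSet (I : Set (W k)))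
    (i : Fin k) : (slice I i).card ≤ 9 := by
  refine indep_le ?_
  intro u hu v hv
  by_cases huv : u = v
  · subst huv
    exact adjB_irrefl u
  · have hne : ((i, u) : W k) ≠ (i, v) := fun h => huv (Prod.mk.inj h).2
    have := hI (Finset.mem_coe.2 ((mem_slice I i u).1 hu))
      (Finset.mem_coe.2 ((mem_slice I i v).1 hv)) hne
    exact Bool.eq_false_iff.2 fun h => this (Or.inl ⟨rfl, h⟩)

/-- the same set in every block -/
def copies (k : ℕ) (T : Finset V) : Finset (W k) := Finset.univ ×ˢ T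

lemma mem_copies {k : ℕ} (T : Finset V) (x : W k) : x ∈ copies k T ↔ x.2 ∈ T := by
  simp [copies]

lemma card_copies (k : ℕ) (T : Finset V) : (copies k T).card = T.card * k := by
  simp [copies, Finset.card_product, mul_comm]

lemma copies_dom (k : ℕ) (T : Finset V) (hT : ∀ v : V, v ∉ T → ∃ u ∈ T, adjB u v = true) :
    ∀ v : W k, v ∉ copies k T → ∃ u ∈ copies k T, (GG k).Adj u v := by
  intro v hv
  obtain ⟨u, hu, hadj⟩ := hT v.2 (fun h => hv ((mem_copies T v).2 h))
  exact ⟨(v.1, u), (mem_copies T _).2 hu, Or.inl ⟨rfl, hadj⟩⟩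

/-- the set `D` -/
def setD : Finset V := Finset.univ.image vd

lemma card_setD : setD.card = 7 := by
  rw [setD, Finset.card_image_of_injective _ Sum.inl_injective]
  simp

lemma dom_setD : ∀ v : V, v ∉ setD → ∃ u ∈ setD, adjB u v = true := by
  exact @of_decide_eq_true _ Fintype.decidableForallFintype (by decide +kernel)

/-- a dominating set with 10 vertices that avoids `D` -/
def setS : Finset V :=
  {vv, vq 0, vc 0 2, vc 0 4, vc 1 0, vc 1 2, vc 1 4, vc 2 0, vc 2 2, vc 2 4}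

lemma card_setS : setS.card = 10 := by decide +kernel

lemma dom_setS : ∀ v : V, v ∉ setS → ∃ u ∈ setS, adjB u v = true := by
  exact @of_decide_eq_true _ Fintype.decidableForallFintype (by decide +kernel)

lemma setS_disj : ∀ a : Fin 7, vd a ∉ setS := by decide +kernel

/-- an independent set with 9 vertices that avoids `d 0` -/
def setI : Finset V :=
  {vd 1, vq 1, vv, vc 0 2, vc 0 3, vc 1 0, vc 1 1, vc 2 0, vc 2 1}

lemma card_setI : setI.card = 9 := by decide +kernel

lemma indep_setI : ∀ u ∈ setI, ∀ v ∈ setI, adjB u v = false := by decide +kernel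

lemma setI_zero : vd 0 ∉ setI := by decide +kernel

lemma copies_indep (k : ℕ) : (GG k).IsIndepSet (copies k setI : Set (W k)) := by
  intro u hu v hv _ hadj
  have hu' := (mem_copies setI u).1 (Finset.mem_coe.1 hu)
  have hv' := (mem_copies setI v).1 (Finset.mem_coe.1 hv)
  rcases (gg_adj _ _).1 hadj with ⟨_, h2⟩ | ⟨_, h2, _⟩
  · rw [indep_setI _ hu' _ hv'] at h2
    exact Bool.false_ne_true h2
  · rw [h2] at hu'
    exact setI_zero hu'

lemma to_clique : ∀ u : V, ∃ a : Fin 7, u = vd a ∨ adjB u (vd a) = true := by decide +kernel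

lemma clique_zero : ∀ a : Fin 7, vd a = vd 0 ∨ adjB (vd a) (vd 0) = true := by decide +kernel

lemma reach_zero {k : ℕ} (i : Fin k) (u : V) : (GG k).Reachable (i, u) (i, vd 0) := by
  have h2 : ∀ a : Fin 7, (GG k).Reachable (i, vd a) (i, vd 0) := by
    intro a
    rcases clique_zero a with h | h
    · rw [h]
    · exact SimpleGraph.Adj.reachable (Or.inl ⟨rfl, h⟩)
  obtain ⟨a, h | h⟩ := to_clique u
  · rw [h]
    exact h2 a
  · exact (SimpleGraph.Adj.reachable (Or.inl ⟨rfl, h⟩ : (GG k).Adj (i, u) (i, vd a))).trans (h2 a)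

lemma gg_connected {k : ℕ} (hk : 0 < k) : (GG k).Connected := by
  rw [SimpleGraph.connected_iff_exists_forall_reachable]
  refine ⟨(⟨0, hk⟩, vd 0), ?_⟩
  rintro ⟨j, u⟩
  refine SimpleGraph.Reachable.trans ?_ (reach_zero j u).symm
  by_cases hj : (⟨0, hk⟩ : Fin k) = j
  · rw [hj]
  · exact SimpleGraph.Adj.reachable (Or.inr ⟨hj, rfl, rfl⟩)

end Pool.Agent.ID68
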